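import Pool.Agent.TH703.HU.Stm

/-!
# Project HU: two differential inequalities (C10, C11)
-/

set_option autoImplicit false

open MeasureTheory Set Metric Filter Topology

namespace Pool.Agent.TH28.HU

open Pool.Agent.TH304.MI Pool.Agent.TH703.HU

/-- A Lipschitz function on an interval is absolutely continuous. -/
theorem ac_of_lip {g : ℝ → ℝ} {a b K : ℝ} (hab : a ≤ b)
    (hK : ∀ s ∈ Icc a b, ∀ t ∈ Icc a b, |g s - g t| ≤ K * |s - t|) :
    AbsolutelyContinuousOnInterval g a b := by
  have h : LipschitzOnWith (Real.toNNReal K) g (uIcc a b) := by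
    rw [uIcc_of_le hab]
    refine LipschitzOnWith.of_dist_le_mul fun x hx y hy => ?_
    rw [Real.dist_eq, Real.dist_eq]
    refine (hK x hx y hy).trans ?_
    exact mul_le_mul_of_nonneg_right (Real.le_coe_toNNReal K) (abs_nonneg _)
  exact h.absolutelyContinuousOnInterval

/-- Growth of `φ ∘ g` from a lower bound of the derivative of `g`. -/
theorem growth {g φ φ' : ℝ → ℝ} {a b K κ : ℝ} (hab : a ≤ b) (hm : MonotoneOn g (Icc a b))
    (hK : ∀ s ∈ Icc a b, ∀ t ∈ Icc a b, |g s - g t| ≤ K * |s - t|) (hpos : 0 < g a)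
    (hφ : ∀ y, 0 < y → HasDerivAt φ (φ' y) y) (hc : ∀ y, 0 < y → ContDiffAt ℝ 1 φ y)
    (hd : ∀ t ∈ Ioo a b, ∀ d : ℝ, HasDerivAt g d t → κ ≤ φ' (g t) * d) :
    κ * (b - a) ≤ φ (g b) - φ (g a) := by
  have hK0 : 0 ≤ (Real.toNNReal K : ℝ) := NNReal.coe_nonneg _
  have hgpos : ∀ t ∈ Icc a b, 0 < g t := fun t ht =>
    lt_of_lt_of_le hpos (hm (left_mem_Icc.2 hab) ht ht.1)
  have hmaps : MapsTo g (Icc a b) (Icc (g a) (g b)) := fun t ht =>
    ⟨hm (left_mem_Icc.2 hab) ht ht.1, hm ht (right_mem_Icc.2 hab) ht.2⟩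
  have hcd : ContDiffOn ℝ 1 φ (Icc (g a) (g b)) := fun y hy =>
    (hc y (lt_of_lt_of_le hpos hy.1)).contDiffWithinAt
  obtain ⟨L, hL⟩ := hcd.exists_lipschitzOnWith (by decide) (convex_Icc _ _) isCompact_Icc
  have hgL : LipschitzOnWith (Real.toNNReal K) g (Icc a b) := by
    refine LipschitzOnWith.of_dist_le_mul fun x hx y hy => ?_
    rw [Real.dist_eq, Real.dist_eq]
    refine (hK x hx y hy).trans ?_
    exact mul_le_mul_of_nonneg_right (Real.le_coe_toNNReal K) (abs_nonneg _)
  have hcomp : LipschitzOnWith (L * Real.toNNReal K) (φ ∘ g) (uIcc a b) := by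
    rw [uIcc_of_le hab]
    exact hL.comp hgL hmaps
  have hAC := hcomp.absolutelyContinuousOnInterval
  have hgAC := ac_of_lip hab hK
  have hint := hAC.integral_deriv_eq_sub
  have h1 : ∫ _x in a..b, κ = κ * (b - a) := by
    rw [intervalIntegral.integral_const, smul_eq_mul, mul_comm]
  have h2 : ∫ _x in a..b, κ ≤ ∫ x in a..b, deriv (φ ∘ g) x := by
    refine intervalIntegral.integral_mono_ae_restrict hab intervalIntegrable_const
      hAC.intervalIntegrable_deriv ?_
    have hae := hgAC.ae_differentiableAt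
    have hIoo : ∀ᵐ x ∂(volume.restrict (Icc a b)), x ∈ Ioo a b := by
      have : (volume.restrict (Icc a b) : Measure ℝ) = volume.restrict (Ioo a b) :=
        (Measure.restrict_congr_set Ioo_ae_eq_Icc).symm
      rw [this]
      exact ae_restrict_mem measurableSet_Ioo
    filter_upwards [hIoo, ae_restrict_of_ae hae] with x hx hdx
    have hxI : x ∈ uIcc a b := by rw [uIcc_of_le hab]; exact Ioo_subset_Icc_self hx
    have hg' := (hdx hxI).hasDerivAt
    have hcmp := (hφ (g x) (hgpos x (Ioo_subset_Icc_self hx))).comp x hg'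
    rw [hcmp.deriv]
    exact hd x hx _ hg'
  rw [h1, hint] at h2
  exact h2

/-- The derivative of a monotone function is nonnegative. -/
theorem deriv_nonneg {g : ℝ → ℝ} {a b t d : ℝ} (hm : MonotoneOn g (Icc a b)) (ht : t ∈ Ioo a b)
    (hd : HasDerivAt g d t) : 0 ≤ d := by
  have h1 : HasDerivWithinAt g d (Icc a b) t := hd.hasDerivWithinAt
  have hu : UniqueDiffWithinAt ℝ (Icc a b) t :=
    uniqueDiffOn_Icc (ht.1.trans ht.2) t (Ioo_subset_Icc_self ht)
  rw [← h1.derivWithin hu]
  exact hm.derivWithin_nonneg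

theorem c10 : S_C10 := by
  intro g r R c θ Λ K hrR hm hK hg0 hc hθ hθ1 hΛ hode h1 h2
  by_contra hne
  have hr : r ∈ Icc r R := left_mem_Icc.2 hrR.le
  have hR : R ∈ Icc r R := right_mem_Icc.2 hrR.le
  have hpos : 0 < g r := lt_of_le_of_ne (hg0 r hr) (Ne.symm hne)
  have hgpos : ∀ t ∈ Icc r R, 0 < g t := fun t ht => lt_of_lt_of_le hpos (hm hr ht ht.1)
  have key := growth (g := g) (φ := fun y => y ^ (1 - θ))
    (φ' := fun y => (1 - θ) * y ^ (-θ)) (κ := (1 - θ) * c / 4) hrR.le hm hK hpos
    (fun y hy => by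
      have := Real.hasDerivAt_rpow_const (x := y) (p := 1 - θ) (Or.inl hy.ne')
      convert this using 2
      ring_nf)
    (fun y hy => Real.contDiffAt_rpow_const_of_ne hy.ne')
    (fun t ht d hd => by
      have htI := Ioo_subset_Icc_self ht
      have hgt := hgpos t htI
      have e1 := hode t ht d hd
      have e2 : g t ^ θ * g t ^ (1 - θ) = g t := by
        rw [← Real.rpow_add hgt]; simp
      have e3 : g t ^ (1 - θ) ≤ g R ^ (1 - θ) :=
        Real.rpow_le_rpow hgt.le (hm htI hR ht.2.le) (by linarith)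
      have e4 : 0 < g t ^ θ := Real.rpow_pos_of_pos hgt _
      have e5 : Λ * g t ^ (1 - θ) ≤ c / 2 := (mul_le_mul_of_nonneg_left e3 hΛ).trans h1
      have e6 : c / 4 * g t ^ θ ≤ d := by
        have : Λ * g t ≤ c / 2 * g t ^ θ := by
          calc Λ * g t = (Λ * g t ^ (1 - θ)) * g t ^ θ := by
                rw [mul_assoc, mul_comm (g t ^ (1 - θ)), e2]
            _ ≤ c / 2 * g t ^ θ := mul_le_mul_of_nonneg_right e5 e4.le
        linarith
      have e7 : g t ^ (-θ) * g t ^ θ = 1 := by
        rw [← Real.rpow_add hgt]; simp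
      have e8 : 0 < g t ^ (-θ) := Real.rpow_pos_of_pos hgt _
      have e9 : c / 4 ≤ g t ^ (-θ) * d := by
        calc c / 4 = g t ^ (-θ) * (c / 4 * g t ^ θ) := by
              rw [mul_left_comm, e7, mul_one]
          _ ≤ g t ^ (-θ) * d := mul_le_mul_of_nonneg_left e6 e8.le
      have e10 : 0 ≤ 1 - θ := by linarith
      calc (1 - θ) * c / 4 = (1 - θ) * (c / 4) := by ring
        _ ≤ (1 - θ) * (g t ^ (-θ) * d) := mul_le_mul_of_nonneg_left e9 e10
        _ = (1 - θ) * g t ^ (-θ) * d := by ring)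
  have hp : 0 < g r ^ (1 - θ) := Real.rpow_pos_of_pos hpos _
  have : (1 - θ) * c / 4 * (R - r) = (1 - θ) * c * (R - r) / 4 := by ring
  linarith

theorem c11 : S_C11 := by
  intro g Λ κ K hm hK hg0 hΛ hκ hκ1 hκ2 hgR hode
  have ha : (29 / 50 : ℝ) ∈ Icc (29 / 50 : ℝ) (3 / 5) := by constructor <;> norm_num
  have hb : (59 / 100 : ℝ) ∈ Icc (29 / 50 : ℝ) (3 / 5) := by constructor <;> norm_num
  have hc : (3 / 5 : ℝ) ∈ Icc (29 / 50 : ℝ) (3 / 5) := by constructor <;> norm_num
  rcases (hg0 _ ha).eq_or_lt with h0 | hpos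
  · rw [← h0]; positivity
  have hgpos : ∀ t ∈ Icc (29 / 50 : ℝ) (3 / 5), 0 < g t :=
    fun t ht => lt_of_lt_of_le hpos (hm ha ht ht.1)
  have hsub1 : Icc (59 / 100 : ℝ) (3 / 5) ⊆ Icc (29 / 50) (3 / 5) :=
    Icc_subset_Icc (by norm_num) le_rfl
  have hsub2 : Icc (29 / 50 : ℝ) (59 / 100) ⊆ Icc (29 / 50) (3 / 5) :=
    Icc_subset_Icc le_rfl (by norm_num)
  have hΛ0 : 0 < Λ := by linarith
  -- first step
  have step1 : g (59 / 100) < 100 * κ ^ 2 := by
    by_contra hcon
    push Not at hcon
    have hs : √(g (3 / 5)) * Λ ≤ 656 / 1000 := by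
      have h1 : √(g (3 / 5)) * Λ = √(Λ ^ 2 * g (3 / 5)) := by
        rw [Real.sqrt_mul (by positivity), Real.sqrt_sq hΛ0.le, mul_comm]
      rw [h1]
      refine (Real.sqrt_le_sqrt hgR).trans ?_
      rw [Real.sqrt_le_left (by norm_num)]
      norm_num
    have key := growth (g := g) (φ := Real.sqrt) (φ' := fun y => 1 / (2 * √y)) (κ := 61 / 1000)
      (a := 59 / 100) (b := 3 / 5) (K := K) (by norm_num) (hm.mono hsub1)
      (fun s hs t ht => hK s (hsub1 hs) t (hsub1 ht)) (hgpos _ hb)
      (fun y hy => Real.hasDerivAt_sqrt hy.ne')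
      (fun y hy => Real.contDiffAt_sqrt hy.ne')
      (fun t ht d hd => by
        have htI : t ∈ Icc (29 / 50 : ℝ) (3 / 5) := hsub1 (Ioo_subset_Icc_self ht)
        have htO : t ∈ Ioo (29 / 50 : ℝ) (3 / 5) := ⟨by linarith [ht.1], ht.2⟩
        have hd0 := deriv_nonneg hm htO hd
        have hgt := hgpos t htI
        have e1 := hode t htO d hd
        set s := √(g t) with hs_def
        have hs0 : 0 < s := Real.sqrt_pos.2 hgt
        have hss : s ^ 2 = g t := Real.sq_sqrt hgt.le
        have hsκ : 10 * κ ≤ s := by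
          have : 100 * κ ^ 2 ≤ g t := hcon.trans (hm hb htI ht.1.le)
          rw [hs_def]
          refine Real.le_sqrt_of_sq_le ?_
          linarith [this, (by ring : (10 * κ) ^ 2 = 100 * κ ^ 2)]
        have hsΛ : s * Λ ≤ 656 / 1000 := by
          refine le_trans ?_ hs
          exact mul_le_mul_of_nonneg_right (Real.sqrt_le_sqrt (hm htI hc htI.2)) hΛ0.le
        rw [← hss] at e1
        set p := 2 * d + Λ * s ^ 2 with hp
        have hp0 : 0 ≤ p := by positivity
        have hp1 : 9 / 10 * s ≤ p := by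
          by_contra hlt
          push Not at hlt
          have q1 : p ^ 2 ≤ (9 / 10 * s) ^ 2 := by
            exact pow_le_pow_left₀ hp0 hlt.le 2
          have q2 : κ * p ≤ s / 10 * (9 / 10 * s) :=
            mul_le_mul (by linarith) hlt.le hp0 (by positivity)
          nlinarith
        have hd1 : 244 / 1000 * s ≤ 2 * d := by
          have : Λ * s ^ 2 ≤ 656 / 1000 * s := by
            calc Λ * s ^ 2 = (s * Λ) * s := by ring
              _ ≤ 656 / 1000 * s := mul_le_mul_of_nonneg_right hsΛ hs0.le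
          linarith
        have : 1 / (2 * s) * d = d / (2 * s) := by ring
        rw [this, le_div_iff₀ (by positivity)]
        linarith)
    have hs2 : √(g (3 / 5)) ≤ 656 / 1000 / 2000 := by
      rw [le_div_iff₀ (by norm_num)]
      exact (mul_le_mul_of_nonneg_left hΛ (Real.sqrt_nonneg _)).trans hs
    have hs3 := Real.sqrt_nonneg (g (59 / 100))
    norm_num at key
    linarith
  -- second step
  have hb0 := hgpos _ hb
  have key2 := growth (g := g) (φ := Real.log) (φ' := fun y => y⁻¹) (κ := 1 / (80 * κ))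
      (a := 29 / 50) (b := 59 / 100) (K := K) (by norm_num) (hm.mono hsub2)
      (fun s hs t ht => hK s (hsub2 hs) t (hsub2 ht)) hpos
      (fun y hy => Real.hasDerivAt_log hy.ne')
      (fun y hy => Real.contDiffAt_log.2 hy.ne')
      (fun t ht d hd => by
        have htI : t ∈ Icc (29 / 50 : ℝ) (3 / 5) := hsub2 (Ioo_subset_Icc_self ht)
        have htO : t ∈ Ioo (29 / 50 : ℝ) (3 / 5) := ⟨ht.1, by linarith [ht.2]⟩
        have hd0 := deriv_nonneg hm htO hd
        have hgt := hgpos t htI
        have e1 := hode t htO d hd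
        have hgκ : g t ≤ 100 * κ ^ 2 := (hm htI hb ht.2.le).trans step1.le
        set p := 2 * d + Λ * g t with hp
        have hp0 : 0 ≤ p := by positivity
        set q := g t / (20 * κ) with hq
        have hqq : g t = 20 * κ * q := by rw [hq]; field_simp
        have hq0 : 0 < q := by positivity
        have hp1 : q ≤ p := by
          by_contra hlt
          push Not at hlt
          have q1 : p ^ 2 ≤ q ^ 2 := pow_le_pow_left₀ hp0 hlt.le 2
          have q2 : κ * p ≤ κ * q := mul_le_mul_of_nonneg_left hlt.le hκ.le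
          have q3 : q ≤ 5 * κ := by
            rw [hq, div_le_iff₀ (by positivity)]
            linarith [hgκ, (by ring : 5 * κ * (20 * κ) = 100 * κ ^ 2)]
          have q4 : q ^ 2 ≤ 5 * κ * q := by
            rw [sq]; exact mul_le_mul_of_nonneg_right q3 hq0.le
          have q5 : 0 < κ * q := by positivity
          nlinarith
        have hΛq : Λ * g t ≤ q / 2 := by
          have h1 : Λ * (40 * κ) ≤ 1 := by
            rw [le_div_iff₀ (by positivity)] at hκ1
            linarith
          calc Λ * g t = (Λ * (40 * κ)) * (q / 2) := by rw [hqq]; ring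
            _ ≤ 1 * (q / 2) := mul_le_mul_of_nonneg_right h1 (by positivity)
            _ = q / 2 := one_mul _
        have hd1 : q / 4 ≤ d := by linarith
        have : 1 / (80 * κ) = (g t)⁻¹ * (q / 4) := by
          rw [hqq]; field_simp; norm_num
        rw [this]
        exact mul_le_mul_of_nonneg_left hd1 (by positivity))
  have hlog : Real.log (g (29 / 50)) ≤ Real.log (g (59 / 100)) - 125 := by
    have h1 : (125 : ℝ) ≤ 1 / (80 * κ) * (59 / 100 - 29 / 50) := by
      have h2 : (12500 : ℝ) ≤ 1 / (80 * κ) := by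
        rw [le_div_iff₀ (by positivity)]
        linarith
      linarith
    linarith
  have hexp : g (29 / 50) ≤ g (59 / 100) * Real.exp (-125) := by
    have h1 := Real.exp_le_exp.2 hlog
    rw [Real.exp_log hpos, sub_eq_add_neg, Real.exp_add, Real.exp_log hb0] at h1
    exact h1
  have h125 : Real.exp (-125) ≤ 1 / 10 ^ 8 := by
    rw [Real.exp_neg, ← one_div]
    refine one_div_le_one_div_of_le (by norm_num) ?_
    have h2 : (2 : ℝ) ≤ Real.exp 1 := by
      have := Real.add_one_le_exp (1 : ℝ)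
      linarith
    calc (10 : ℝ) ^ 8 ≤ 2 ^ 125 := by norm_num
      _ ≤ Real.exp 1 ^ 125 := pow_le_pow_left₀ (by norm_num) h2 125
      _ = Real.exp 125 := by rw [← Real.exp_nat_mul]; norm_num
  calc g (29 / 50) ≤ g (59 / 100) * Real.exp (-125) := hexp
    _ ≤ (100 * κ ^ 2) * (1 / 10 ^ 8) :=
      mul_le_mul step1.le h125 (Real.exp_pos _).le (by positivity)
    _ = κ ^ 2 / 10 ^ 6 := by ring

end Pool.Agent.TH28.HU
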